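import Pool.Agent.H940R3.ZB.Stmts

/-! Task 11 (Chebyshev constants, Zaharjuta), by helper482 -/

set_option autoImplicit false

open MeasureTheory Filter Topology

namespace Pool.Agent.H940R3.ZB

namespace Task11

open MvPolynomial

/-- the graded lexicographic order -/
noncomputable abbrev mo (n : ℕ) : MonomialOrder (Fin n) := MonomialOrder.degLex

/-- exponent as a finitely supported function -/
noncomputable def fs {n : ℕ} (α : Fin n → ℕ) : Fin n →₀ ℕ := Finsupp.equivFunOnFinite.symm α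

@[simp] lemma fs_apply {n : ℕ} (α : Fin n → ℕ) (i : Fin n) : fs α i = α i := rfl

lemma fs_add {n : ℕ} (α β : Fin n → ℕ) : fs (α + β) = fs α + fs β := by
  ext i; simp

lemma fs_inj {n : ℕ} {α β : Fin n → ℕ} (h : fs α = fs β) : α = β := by
  funext i; rw [← fs_apply α, h, fs_apply]

/-- `p` is monic of degree `α` -/
def Mon {n : ℕ} (α : Fin n → ℕ) (p : MvPolynomial (Fin n) ℂ) : Prop :=
  p.coeff (fs α) = 1 ∧ (mo n).toSyn ((mo n).degree p) ≤ (mo n).toSyn (fs α)

lemma Mon.mul {n : ℕ} {α β : Fin n → ℕ} {p q : MvPolynomial (Fin n) ℂ} (hp : Mon α p)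
    (hq : Mon β q) : Mon (α + β) (p * q) := by
  refine ⟨?_, ?_⟩
  · rw [fs_add, MonomialOrder.coeff_mul_of_add_of_degree_le hp.2 hq.2, hp.1, hq.1, one_mul]
  · refine (MonomialOrder.toSyn_degree_mul_le).trans ?_
    rw [fs_add, map_add]
    exact add_le_add hp.2 hq.2

lemma deg_le {n : ℕ} {d : Fin n →₀ ℕ} {α : Fin n → ℕ}
    (h : (mo n).toSyn d ≤ (mo n).toSyn (fs α)) : ∑ i, d i ≤ ∑ i, α i := by
  have h1 := MonomialOrder.degLex_le_iff.1 h
  have h2 := Finsupp.DegLex.monotone_degree h1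
  simp only [ofDegLex_toDegLex, Finsupp.degree_eq_sum] at h2
  simpa using h2

lemma Mon.supp {n : ℕ} {α : Fin n → ℕ} {p : MvPolynomial (Fin n) ℂ} (hp : Mon α p)
    {d : Fin n →₀ ℕ} (hd : d ∈ p.support) : (mo n).toSyn d ≤ (mo n).toSyn (fs α) :=
  (MonomialOrder.le_degree hd).trans hp.2

lemma Mon.totalDegree {n : ℕ} {α : Fin n → ℕ} {p : MvPolynomial (Fin n) ℂ} (hp : Mon α p) :
    p.totalDegree ≤ ∑ i, α i := by
  unfold MvPolynomial.totalDegree
  apply Finset.sup_le
  intro d hd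
  rw [Finsupp.sum_fintype _ _ (fun _ => rfl)]
  exact deg_le (hp.supp hd)

/-- the admissible bounds -/
def SS {n : ℕ} (K : Set (Fin n → ℂ)) (α : Fin n → ℕ) : Set ℝ :=
  {M | 0 ≤ M ∧ ∃ p : MvPolynomial (Fin n) ℂ, Mon α p ∧ ∀ x ∈ K, ‖eval x p‖ ≤ M}

noncomputable def TT {n : ℕ} (K : Set (Fin n → ℂ)) (α : Fin n → ℕ) : ℝ := sInf (SS K α)

lemma SS_bddBelow {n : ℕ} (K : Set (Fin n → ℂ)) (α : Fin n → ℕ) : BddBelow (SS K α) :=
  ⟨0, fun _ h => h.1⟩

lemma mon_monomial {n : ℕ} (α : Fin n → ℕ) : Mon α (monomial (fs α) (1 : ℂ)) := by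
  refine ⟨by simp, ?_⟩
  exact MonomialOrder.degree_monomial_le 1

lemma eval_monomial' {n : ℕ} (α : Fin n → ℕ) (c : ℂ) (x : Fin n → ℂ) :
    eval x (monomial (fs α) c) = c * ∏ i, x i ^ α i := by
  rw [eval_monomial, Finsupp.prod_fintype _ _ (fun _ => pow_zero _)]
  rfl

lemma upper {n : ℕ} {K : Set (Fin n → ℂ)} {R : ℝ}
    (hK : ∀ x ∈ K, ∀ i, ‖x i‖ ≤ Real.exp R) (α : Fin n → ℕ) :
    Real.exp (R * ∑ i, (α i : ℝ)) ∈ SS K α := by
  refine ⟨(Real.exp_pos _).le, _, mon_monomial α, fun x hx => ?_⟩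
  rw [eval_monomial', one_mul, norm_prod, Finset.mul_sum, Real.exp_sum]
  apply Finset.prod_le_prod
  · intro i _; positivity
  · intro i _
    rw [norm_pow, mul_comm, Real.exp_nat_mul]
    exact pow_le_pow_left₀ (norm_nonneg _) (hK x hx i) _

lemma lower (h2 : T2) {n : ℕ} {K : Set (Fin n → ℂ)} {L : ℝ} (hL : BWdisc K L) {α : Fin n → ℕ}
    {M : ℝ} (hM : M ∈ SS K α) : Real.exp (-L * ∑ i, (α i : ℝ)) ≤ M := by
  obtain ⟨hM0, p, hp, hpM⟩ := hM
  have h := hL (∑ i, α i) p hp.totalDegree M hpM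
  have h3 := h2 n p (fs α) (Real.exp (L * (∑ i, α i : ℕ)) * M)
    (fun z hz => h z fun i => (hz i).le)
  rw [hp.1, norm_one] at h3
  rw [neg_mul, Real.exp_neg]
  push_cast at h3
  rw [inv_le_iff_one_le_mul₀' (Real.exp_pos _)]
  exact h3

lemma SS_mul {n : ℕ} {K : Set (Fin n → ℂ)} {α β : Fin n → ℕ} {M M' : ℝ} (hM : M ∈ SS K α)
    (hM' : M' ∈ SS K β) : M * M' ∈ SS K (α + β) := by
  obtain ⟨hM0, p, hp, hpM⟩ := hM
  obtain ⟨hM0', q, hq, hqM⟩ := hM'
  refine ⟨mul_nonneg hM0 hM0', p * q, hp.mul hq, fun x hx => ?_⟩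
  rw [map_mul, norm_mul]
  exact mul_le_mul (hpM x hx) (hqM x hx) (norm_nonneg _) hM0

lemma submul {n : ℕ} {K : Set (Fin n → ℂ)} (α β : Fin n → ℕ) (hα : (SS K α).Nonempty)
    (hβ : (SS K β).Nonempty) (hpα : 0 < TT K α) (hpβ : ∀ M ∈ SS K β, 0 < M) :
    TT K (α + β) ≤ TT K α * TT K β := by
  have h1 : ∀ M ∈ SS K α, ∀ M' ∈ SS K β, TT K (α + β) ≤ M * M' := fun M hM M' hM' =>
    csInf_le (SS_bddBelow K _) (SS_mul hM hM')
  have h2 : ∀ M' ∈ SS K β, TT K (α + β) ≤ TT K α * M' := by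
    intro M' hM'
    have hpos := hpβ M' hM'
    rw [← div_le_iff₀ hpos]
    apply le_csInf hα
    intro M hM
    rw [div_le_iff₀ hpos]
    exact h1 M hM M' hM'
  rw [mul_comm, ← div_le_iff₀ hpα]
  apply le_csInf hβ
  intro M' hM'
  rw [div_le_iff₀ hpα, mul_comm]
  exact h2 M' hM'

/-- exponent function of an element of `I n k` -/
def ex {n k : ℕ} (a : I n k) : Fin n → ℕ := fun i => (a.1 i : ℕ)

lemma ex_inj {n k : ℕ} {a b : I n k} (h : ex a = ex b) : a = b := by
  apply Subtype.ext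
  funext i
  exact Fin.ext (congrFun h i)

lemma enum_aux {β : Type} [Fintype β] {γ : Type} [LinearOrder γ] (f : β → γ)
    (hf : Function.Injective f) :
    ∃ e : Fin (Fintype.card β) ≃ β, ∀ i j, i ≤ j ↔ f (e i) ≤ f (e j) := by
  let _ : LinearOrder β := LinearOrder.lift' f hf
  let e := Fintype.orderIsoFinOfCardEq β rfl
  refine ⟨e.toEquiv, fun i j => ?_⟩
  rw [← e.le_iff_le]
  rfl

/-- the increasing enumeration -/
lemma exists_enum (n k : ℕ) : ∃ e : Fin (Fintype.card (I n k)) ≃ I n k,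
    ∀ i j, i ≤ j ↔ (mo n).toSyn (fs (ex (e i))) ≤ (mo n).toSyn (fs (ex (e j))) :=
  enum_aux (fun a : I n k => (mo n).toSyn (fs (ex a)))
    (fun _ _ h => ex_inj (fs_inj ((mo n).toSyn.injective h)))

lemma exists_ex {n k : ℕ} (d : Fin n →₀ ℕ) (h : ∑ i, d i ≤ k) : ∃ a : I n k, fs (ex a) = d := by
  have h1 : ∀ i, d i ≤ k := fun i =>
    (Finset.single_le_sum (fun j _ => Nat.zero_le (d j)) (Finset.mem_univ i)).trans h
  refine ⟨⟨fun i => ⟨d i, Nat.lt_succ_of_le (h1 i)⟩, by simpa using h⟩, ?_⟩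
  ext i
  simp [ex]

lemma ex_sum {n k : ℕ} (a : I n k) : ∑ i, ex a i ≤ k := a.2

lemma continuous_eval' {n : ℕ} (p : MvPolynomial (Fin n) ℂ) :
    Continuous fun x : Fin n → ℂ => eval x p := MvPolynomial.continuous_eval p

/-- the infimum is bounded by the maximum of a monic polynomial -/
lemma TT_le {n : ℕ} {K : Set (Fin n → ℂ)} (hK : IsCompact K) (hKn : K.Nonempty) {α : Fin n → ℕ}
    {p : MvPolynomial (Fin n) ℂ} (hp : Mon α p) : ∃ x ∈ K, TT K α ≤ ‖eval x p‖ := by
  obtain ⟨x, hx, hmax⟩ := hK.exists_isMaxOn hKn (continuous_eval' p).norm.continuousOn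
  exact ⟨x, hx, csInf_le (SS_bddBelow K α) ⟨norm_nonneg _, p, hp, fun y hy => hmax hy⟩⟩

/-- evaluation of a monic polynomial in terms of the enumeration -/
lemma eval_enum {n k : ℕ} (e : Fin (Fintype.card (I n k)) ≃ I n k)
    (he : ∀ i j, i ≤ j ↔ (mo n).toSyn (fs (ex (e i))) ≤ (mo n).toSyn (fs (ex (e j))))
    (i : Fin (Fintype.card (I n k))) {p : MvPolynomial (Fin n) ℂ} (hp : Mon (ex (e i)) p)
    (x : Fin n → ℂ) :
    eval x p = ∏ l, x l ^ (ex (e i) l) +
      ∑ j ∈ Finset.univ.filter (fun j => j < i), p.coeff (fs (ex (e j))) * ∏ l, x l ^ (ex (e j) l) := by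
  classical
  have hinj : Function.Injective (fun j => fs (ex (e j))) := by
    intro a b h
    exact e.injective (ex_inj (fs_inj h))
  have hsub : p.support ⊆ (Finset.univ.filter (fun j => j ≤ i)).map ⟨_, hinj⟩ := by
    intro d hd
    have h1 := hp.supp hd
    have h2 := (deg_le h1).trans (ex_sum (e i))
    obtain ⟨a, ha⟩ := exists_ex d h2
    rw [Finset.mem_map]
    refine ⟨e.symm a, ?_, by simpa using ha⟩
    rw [Finset.mem_filter]
    refine ⟨Finset.mem_univ _, ?_⟩
    rw [he, Equiv.apply_symm_apply, ha]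
    exact h1
  have h3 : eval x p = ∑ j ∈ Finset.univ.filter (fun j => j ≤ i),
      p.coeff (fs (ex (e j))) * ∏ l, x l ^ (ex (e j) l) := by
    rw [MvPolynomial.eval_eq', Finset.sum_subset hsub, Finset.sum_map]
    · rfl
    · intro d _ hd
      rw [MvPolynomial.notMem_support_iff.1 hd, zero_mul]
  have h4 : Finset.univ.filter (fun j => j ≤ i) = insert i (Finset.univ.filter (fun j => j < i)) := by
    ext j
    simp only [Finset.mem_filter, Finset.mem_univ, true_and, Finset.mem_insert]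
    exact le_iff_eq_or_lt
  rw [h3, h4, Finset.sum_insert (by simp), hp.1, one_mul]

/-- a monic polynomial with given lower coefficients -/
lemma exists_mon {n k : ℕ} (e : Fin (Fintype.card (I n k)) ≃ I n k)
    (he : ∀ i j, i ≤ j ↔ (mo n).toSyn (fs (ex (e i))) ≤ (mo n).toSyn (fs (ex (e j))))
    (i : Fin (Fintype.card (I n k))) (c : Fin (Fintype.card (I n k)) → ℂ) :
    ∃ p : MvPolynomial (Fin n) ℂ, Mon (ex (e i)) p ∧ ∀ x : Fin n → ℂ,
      eval x p = ∏ l, x l ^ (ex (e i) l) +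
        ∑ j ∈ Finset.univ.filter (fun j => j < i), c j * ∏ l, x l ^ (ex (e j) l) := by
  classical
  refine ⟨monomial (fs (ex (e i))) 1 +
    ∑ j ∈ Finset.univ.filter (fun j => j < i), monomial (fs (ex (e j))) (c j), ⟨?_, ?_⟩, ?_⟩
  · rw [coeff_add, coeff_monomial, if_pos rfl, coeff_sum, Finset.sum_eq_zero, add_zero]
    intro j hj
    rw [coeff_monomial, if_neg]
    intro h
    have := e.injective (ex_inj (fs_inj h))
    simp [this] at hj
  · refine MonomialOrder.degree_add_le.trans (max_le (MonomialOrder.degree_monomial_le 1) ?_)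
    refine MonomialOrder.degree_sum_le.trans ?_
    apply Finset.sup_le
    intro j hj
    refine (MonomialOrder.degree_monomial_le _).trans ?_
    rw [← he]
    simp only [Finset.mem_filter] at hj
    exact hj.2.le
  · intro x
    rw [map_add, map_sum, eval_monomial', one_mul]
    congr 1
    apply Finset.sum_congr rfl
    intro j _
    rw [eval_monomial']

lemma sum_range_fin {N : ℕ} (i : Fin N) (F : ℕ → ℂ) :
    ∑ j ∈ Finset.range i, F j = ∑ j ∈ Finset.univ.filter (fun j : Fin N => j < i), F j := by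
  have h1 : ∑ j ∈ Finset.univ.filter (fun j : Fin N => j < i), F j =
      ∑ a ∈ (Finset.univ.filter (fun j : Fin N => j < i)).map Fin.valEmbedding, F a := by
    rw [Finset.sum_map]
    rfl
  rw [h1]
  congr 1
  ext a
  simp only [Finset.mem_range, Finset.mem_map, Finset.mem_filter, Finset.mem_univ, true_and,
    Fin.valEmbedding_apply]
  constructor
  · intro h
    exact ⟨⟨a, h.trans i.2⟩, h, rfl⟩
  · rintro ⟨b, hb, rfl⟩
    exact hb

end Task11

open Task11 MvPolynomial in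
theorem task11 : T2 → T4 → T5 → T17 → T11 := by
  intro h2 h4 h5 _ n K L hK hKn _ hL
  obtain ⟨C, hC⟩ := hK.isBounded.exists_norm_le
  have hR : ∀ x ∈ K, ∀ i, ‖x i‖ ≤ Real.exp (max C 0) := by
    intro x hx i
    have h1 := norm_le_pi_norm x i
    have h2 := hC x hx
    have h3 := Real.add_one_le_exp (max C 0)
    have h4 := le_max_left C 0
    linarith
  have hmem : ∀ α : Fin n → ℕ, Real.exp ((max C 0) * ∑ i, (α i : ℝ)) ∈ SS K α := upper hR
  have hne : ∀ α : Fin n → ℕ, (SS K α).Nonempty := fun α => ⟨_, hmem α⟩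
  have hlow : ∀ α : Fin n → ℕ, Real.exp (-L * ∑ i, (α i : ℝ)) ≤ TT K α := fun α =>
    le_csInf (hne α) fun M hM => lower h2 hL hM
  have hpos : ∀ α : Fin n → ℕ, 0 < TT K α := fun α => (Real.exp_pos _).trans_le (hlow α)
  refine ⟨TT K, hlow, ?_, ⟨max C 0, le_max_right _ _, fun α =>
    csInf_le (SS_bddBelow K α) (hmem α)⟩, ?_⟩
  · intro α β
    exact submul α β (hne α) (hne β) (hpos α)
      (fun M hM => (Real.exp_pos _).trans_le (lower h2 hL hM))
  intro k
  obtain ⟨e, he⟩ := exists_enum n k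
  obtain ⟨N, hN⟩ : ∃ N, N = Fintype.card (I n k) := ⟨_, rfl⟩
  let φ : ℕ → (Fin n → ℂ) → ℂ := fun i x =>
    if h : i < Fintype.card (I n k) then ∏ l, x l ^ ex (e ⟨i, h⟩) l else 0
  have hφ : ∀ (j : Fin (Fintype.card (I n k))) x, φ j x = ∏ l, x l ^ ex (e j) l := by
    intro j x
    simp only [φ, dif_pos j.2]
  have hdet : ∀ z : I n k → (Fin n → ℂ), Matrix.det (E z) =
      Matrix.det (Matrix.of fun a b : Fin (Fintype.card (I n k)) => φ b (z (e a))) := by
    intro z
    rw [← Matrix.det_submatrix_equiv_self e (E z)]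
    congr 1
    ext a b
    rw [Matrix.submatrix_apply, Matrix.of_apply, hφ]
    rfl
  have hprod : ∀ F : I n k → ℝ, ∀ τ : ℕ → ℝ, (∀ j : Fin (Fintype.card (I n k)), τ j = F (e j)) →
      ∏ i ∈ Finset.range (Fintype.card (I n k)), τ i = ∏ b : I n k, F b := by
    intro F τ hτ
    rw [Finset.prod_range, ← Equiv.prod_comp e]
    exact Finset.prod_congr rfl fun j _ => hτ j
  constructor
  · -- existence
    let τ : ℕ → ℝ := fun i => if h : i < Fintype.card (I n k) then TT K (ex (e ⟨i, h⟩)) else 0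
    have hτ : ∀ j : Fin (Fintype.card (I n k)), τ j = TT K (ex (e j)) := by
      intro j
      simp only [τ, dif_pos j.2]
    have hτ0 : ∀ i, 0 ≤ τ i := by
      intro i
      simp only [τ]
      split_ifs
      · exact (hpos _).le
      · exact le_rfl
    obtain ⟨x, hxK, hx⟩ := h4 (Fin n → ℂ) K φ τ (Fintype.card (I n k)) hKn hτ0 (by
      intro i hi c
      obtain ⟨p, hp, hpe⟩ := exists_mon e he ⟨i, hi⟩ (fun j => c j)
      obtain ⟨x, hx, hle⟩ := TT_le hK hKn hp
      refine ⟨x, hx, ?_⟩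
      have e1 : φ i x + ∑ j ∈ Finset.range i, c j * φ j x = eval x p := by
        rw [hpe x]
        have e2 := sum_range_fin (⟨i, hi⟩ : Fin (Fintype.card (I n k))) (fun j => c j * φ j x)
        have e3 := hφ ⟨i, hi⟩ x
        simp only at e2 e3
        rw [e2, e3]
        congr 1
        exact Finset.sum_congr rfl fun j _ => by rw [hφ]
      rw [e1]
      have e4 := hτ ⟨i, hi⟩
      simp only at e4
      rw [e4]
      exact hle)
    refine ⟨fun a => x (e.symm a), fun a => hxK _, ?_⟩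
    change ∏ b : I n k, TT K (ex b) ≤ _
    rw [hdet, ← hprod (fun b => TT K (ex b)) τ hτ]
    simp only [Equiv.symm_apply_apply]
    exact hx
  · -- upper bound
    intro z hz
    have key : ∀ ε : ℝ, 0 < ε → ‖Matrix.det (E z)‖ ≤ ((Fintype.card (I n k)).factorial : ℝ) *
        ∏ b : I n k, (TT K (ex b) + ε) := by
      intro ε hε
      have hex : ∀ i : Fin (Fintype.card (I n k)), ∃ p : MvPolynomial (Fin n) ℂ,
          Mon (ex (e i)) p ∧ ∀ x ∈ K, ‖eval x p‖ ≤ TT K (ex (e i)) + ε := by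
        intro i
        obtain ⟨M, ⟨_, p, hp, hpM⟩, hM⟩ := exists_lt_of_csInf_lt (hne (ex (e i)))
          (lt_add_of_pos_right (TT K (ex (e i))) hε)
        exact ⟨p, hp, fun x hx => (hpM x hx).trans hM.le⟩
      choose p hp hpM using hex
      let c : ℕ → ℕ → ℂ := fun i j => if h : i < Fintype.card (I n k) ∧ j < Fintype.card (I n k)
        then (p ⟨i, h.1⟩).coeff (fs (ex (e ⟨j, h.2⟩))) else 0
      let τ : ℕ → ℝ := fun i => if h : i < Fintype.card (I n k) then TT K (ex (e ⟨i, h⟩)) + ε else 0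
      have hτ : ∀ j : Fin (Fintype.card (I n k)), τ j = TT K (ex (e j)) + ε := by
        intro j
        simp only [τ, dif_pos j.2]
      have hc : ∀ i j : Fin (Fintype.card (I n k)), c i j = (p i).coeff (fs (ex (e j))) := by
        intro i j
        simp only [c, dif_pos (And.intro i.2 j.2)]
      rw [hdet, ← hprod (fun b => TT K (ex b) + ε) τ hτ]
      refine h5 (Fin n → ℂ) K φ τ c (Fintype.card (I n k)) ?_ (fun a => z (e a))
        (fun a => hz _)
      intro i hi x hx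
      have e1 : φ i x + ∑ j ∈ Finset.range i, c i j * φ j x = eval x (p ⟨i, hi⟩) := by
        rw [eval_enum e he ⟨i, hi⟩ (hp ⟨i, hi⟩) x]
        have e2 := sum_range_fin (⟨i, hi⟩ : Fin (Fintype.card (I n k))) (fun j => c i j * φ j x)
        have e3 := hφ ⟨i, hi⟩ x
        simp only at e2 e3
        rw [e2, e3]
        congr 1
        refine Finset.sum_congr rfl fun j _ => ?_
        have e5 := hc ⟨i, hi⟩ j
        simp only at e5
        rw [hφ, e5]
      rw [e1]
      have e4 := hτ ⟨i, hi⟩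
      simp only at e4
      rw [e4]
      exact hpM ⟨i, hi⟩ x hx
    have hcont : Continuous (fun ε : ℝ => ((Fintype.card (I n k)).factorial : ℝ) *
        ∏ b : I n k, (TT K (ex b) + ε)) := by fun_prop
    have ht := (hcont.tendsto 0).mono_left (nhdsWithin_le_nhds (s := Set.Ioi 0))
    have hfin := ge_of_tendsto ht (eventually_nhdsWithin_of_forall fun ε hε => key ε hε)
    simp only [add_zero] at hfin
    exact hfin

end Pool.Agent.H940R3.ZB
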