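import Mathlib
import Pool.Agent.H940R3.ZB.Stmts

/-! Task 4 of the project H716-BM (helper721): greedy choice of points making a determinant large. -/

set_option autoImplicit false

namespace Pool.Agent.H940R3.ZB

theorem task4 : T4 := by
  intro X K φ τ N hK hτ
  induction N with
  | zero =>
    intro _
    exact ⟨Fin.elim0, fun i => i.elim0, by simp⟩
  | succ N ih =>
    intro h
    obtain ⟨x, hx, hdet⟩ := ih (fun i hi c => h i (Nat.lt_succ_of_lt hi) c)
    set D : ℂ := Matrix.det (Matrix.of fun a b : Fin N => φ b (x a)) with hD
    by_cases hD0 : D = 0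
    · obtain ⟨k, hk⟩ := hK
      refine ⟨fun _ => k, fun _ => hk, ?_⟩
      have h1 : ∏ i ∈ Finset.range N, τ i ≤ 0 := by
        rw [hD0, norm_zero] at hdet; exact hdet
      rw [Finset.prod_range_succ]
      exact le_trans (mul_nonpos_of_nonpos_of_nonneg h1 (hτ N)) (norm_nonneg _)
    · obtain ⟨y, hy, hyt⟩ := h N (Nat.lt_succ_self N) (fun j => if hj : j < N then
        ((-1) ^ (N + j) * Matrix.det (Matrix.of fun a b : Fin N =>
          φ ((Fin.castSucc (⟨j, hj⟩ : Fin N)).succAbove b : Fin (N + 1)) (x a))) / D else 0)
      refine ⟨Fin.snoc (α := fun _ => X) x y, ?_, ?_⟩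
      · intro i
        refine Fin.lastCases ?_ (fun j => ?_) i
        · rw [Fin.snoc_last]; exact hy
        · rw [Fin.snoc_castSucc]; exact hx j
      · have hkey : Matrix.det (Matrix.of fun a b : Fin (N + 1) =>
            φ b (Fin.snoc (α := fun _ => X) x y a)) =
            D * (φ N y + ∑ j ∈ Finset.range N, (if hj : j < N then
              ((-1) ^ (N + j) * Matrix.det (Matrix.of fun a b : Fin N =>
              φ ((Fin.castSucc (⟨j, hj⟩ : Fin N)).succAbove b : Fin (N + 1)) (x a))) / D
              else 0) * φ j y) := by
          rw [Matrix.det_succ_row _ (Fin.last N), Fin.sum_univ_castSucc, Finset.sum_range, mul_add,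
            Finset.mul_sum, add_comm]
          congr 1
          · rw [Matrix.of_apply, Fin.snoc_last, Fin.val_last, Fin.succAbove_last]
            have h2 : (-1 : ℂ) ^ (N + N) = 1 := by
              rw [← two_mul, pow_mul]; norm_num
            rw [h2, one_mul, mul_comm, hD]
            congr 2
            ext a b
            simp [Matrix.submatrix_apply, Fin.snoc_castSucc]
          · refine Finset.sum_congr rfl fun j _ => ?_
            rw [Matrix.of_apply, Fin.snoc_last, Fin.val_last, Fin.succAbove_last, dif_pos j.2]
            have h3 : (Matrix.of fun a b : Fin (N + 1) =>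
                φ b (Fin.snoc (α := fun _ => X) x y a)).submatrix Fin.castSucc
                (Fin.castSucc j).succAbove =
                Matrix.of fun a b : Fin N =>
                  φ ((Fin.castSucc (⟨j, j.2⟩ : Fin N)).succAbove b : Fin (N + 1)) (x a) := by
              ext a b
              simp [Matrix.submatrix_apply, Fin.snoc_castSucc]
            rw [h3]
            simp only [Fin.val_castSucc]
            field_simp
        rw [hkey, norm_mul, Finset.prod_range_succ]
        exact mul_le_mul hdet hyt (hτ N) (norm_nonneg _)

end Pool.Agent.H940R3.ZB
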