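import Mathlib
import Pool.Agent.H940R3.ZB.Stmts

set_option autoImplicit false

namespace Pool.Agent.H940R3.ZB

/-- the unitriangular matrix of the coefficients -/
def C5 (N : ℕ) (c : ℕ → ℕ → ℂ) : Matrix (Fin N) (Fin N) ℂ :=
  Matrix.of fun j i : Fin N => if (j : ℕ) < i then c i j else if j = i then 1 else 0

lemma det_C5 (N : ℕ) (c : ℕ → ℕ → ℂ) : (C5 N c).det = 1 := by
  have h : (C5 N c).BlockTriangular id := by
    intro i j hij
    have h1 : j < i := hij
    simp only [C5, Matrix.of_apply]
    rw [if_neg, if_neg]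
    · exact ne_of_gt h1
    · have : (j : ℕ) < i := h1
      omega
  rw [Matrix.det_of_isUpperTriangular h]
  refine Finset.prod_eq_one fun i _ => ?_
  simp [C5]

theorem task5 : T5 := by
  intro X K φ τ c N h x hx
  have hmul : (Matrix.of fun a b : Fin N => φ b (x a)) * C5 N c
      = Matrix.of fun a b : Fin N =>
        φ b (x a) + ∑ j ∈ Finset.range (b : ℕ), c b j * φ j (x a) := by
    ext a i
    rw [Matrix.mul_apply]
    simp only [Matrix.of_apply, C5]
    have h1 : ∀ j : Fin N, φ j (x a) * (if (j : ℕ) < i then c i j else if j = i then 1 else 0)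
        = (if (j : ℕ) < i then c i j * φ j (x a) else 0) + (if j = i then φ j (x a) else 0) := by
      intro j
      by_cases hj : (j : ℕ) < i
      · have hne : j ≠ i := fun h => by rw [h] at hj; exact lt_irrefl _ hj
        simp only [hj, hne, if_true, if_false]; ring
      · by_cases hji : j = i
        · simp [hji]
        · simp [hj, hji]
    rw [Finset.sum_congr rfl fun j _ => h1 j, Finset.sum_add_distrib, Finset.sum_ite_eq']
    simp only [Finset.mem_univ, if_true]
    rw [add_comm]
    congr 1
    rw [Fin.sum_univ_eq_sum_range (fun j => if j < (i : ℕ) then c i j * φ j (x a) else 0) N,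
      ← Finset.sum_filter]
    refine Finset.sum_congr ?_ fun _ _ => rfl
    ext j
    simp only [Finset.mem_filter, Finset.mem_range]
    have := i.2
    omega
  have hdet : (Matrix.of fun a b : Fin N => φ b (x a)).det
      = (Matrix.of fun a b : Fin N =>
        φ b (x a) + ∑ j ∈ Finset.range (b : ℕ), c b j * φ j (x a)).det := by
    rw [← hmul, Matrix.det_mul, det_C5, mul_one]
  rw [hdet, Matrix.det_apply]
  have hσ : ∀ σ : Equiv.Perm (Fin N), ‖Equiv.Perm.sign σ • ∏ i, (Matrix.of fun a b : Fin N =>
        φ b (x a) + ∑ j ∈ Finset.range (b : ℕ), c b j * φ j (x a)) (σ i) i‖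
      ≤ ∏ i ∈ Finset.range N, τ i := by
    intro σ
    have h1 : ‖Equiv.Perm.sign σ • ∏ i, (Matrix.of fun a b : Fin N =>
        φ b (x a) + ∑ j ∈ Finset.range (b : ℕ), c b j * φ j (x a)) (σ i) i‖
        = ‖∏ i, (Matrix.of fun a b : Fin N =>
        φ b (x a) + ∑ j ∈ Finset.range (b : ℕ), c b j * φ j (x a)) (σ i) i‖ := by
      rcases Int.units_eq_one_or (Equiv.Perm.sign σ) with hs | hs
      · rw [hs, one_smul]
      · rw [hs, Units.smul_def, Units.val_neg, Units.val_one, neg_smul, one_smul, norm_neg]
    rw [h1, norm_prod, ← Fin.prod_univ_eq_prod_range τ N]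
    refine Finset.prod_le_prod (fun i _ => norm_nonneg _) fun i _ => ?_
    exact h i i.2 (x (σ i)) (hx _)
  refine (norm_sum_le _ _).trans ((Finset.sum_le_sum fun σ _ => hσ σ).trans ?_)
  rw [Finset.sum_const, Finset.card_univ, Fintype.card_perm, Fintype.card_fin, nsmul_eq_mul]

end Pool.Agent.H940R3.ZB
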