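import Pool.Agent.H940R3.ZB.Stmts

set_option autoImplicit false

open MeasureTheory Filter Topology

namespace Pool.Agent.H940R3.ZB

namespace Task6Aux

theorem mul_le {n : ℕ} {f : (Fin n → ℕ) → ℝ} (hsub : ∀ α β, f (α + β) ≤ f α + f β)
    (q : ℕ) (hq : 1 ≤ q) (β : Fin n → ℕ) :
    f (fun i => q * β i) ≤ q * f β := by
  induction q, hq using Nat.le_induction with
  | base => simp
  | succ m hm ih =>
    have h : (fun i => (m+1) * β i) = (fun i => m * β i) + β := by
      funext i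
      simp [Nat.add_mul]
    rw [h]
    push_cast
    linarith [hsub (fun i => m * β i) β]

theorem key {n : ℕ} {f : (Fin n → ℕ) → ℝ} {C : ℝ} (hsub : ∀ α β, f (α + β) ≤ f α + f β)
    (h0 : ∀ α, 0 ≤ f α) (hC : 0 ≤ C) (hf : ∀ α, f α ≤ C * ∑ i, (α i : ℝ))
    (k M q : ℕ) (hq : 1 ≤ q) (hkq : k ≤ q * M) :
    ∑ a : I n k, f (fun i => (a.1 i : ℕ)) ≤
      (q : ℝ)^(n+1) * (∑ a : I n M, f (fun i => (a.1 i : ℕ))) +
        ((k : ℝ)+1)^n * (C * n * q) := by
  have hdiv : ∀ a : I n k, ∑ i, ((a.1 i : ℕ) / q) ≤ M := by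
    intro a
    have h1 : q * ∑ i, ((a.1 i : ℕ) / q) ≤ ∑ i, (a.1 i : ℕ) := by
      rw [Finset.mul_sum]
      exact Finset.sum_le_sum fun i _ => Nat.mul_div_le _ _
    have h2 := a.2
    have h3 : q * ∑ i, ((a.1 i : ℕ) / q) ≤ q * M := h1.trans (h2.trans hkq)
    exact Nat.le_of_mul_le_mul_left h3 hq
  have hdiv1 : ∀ (a : I n k) (i : Fin n), (a.1 i : ℕ) / q < M + 1 := by
    intro a i
    have h1 := Finset.single_le_sum (f := fun i => (a.1 i : ℕ) / q)
      (fun _ _ => Nat.zero_le _) (Finset.mem_univ i)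
    have h2 := hdiv a
    exact Nat.lt_succ_of_le (h1.trans h2)
  let φ : I n k → I n M × (Fin n → Fin q) := fun a =>
    (⟨fun i => ⟨(a.1 i : ℕ) / q, hdiv1 a i⟩, hdiv a⟩,
      fun i => ⟨(a.1 i : ℕ) % q, Nat.mod_lt _ hq⟩)
  have hφ : Function.Injective φ := by
    intro a b hab
    have h1 := congrArg Prod.fst hab
    have h2 := congrArg Prod.snd hab
    apply Subtype.ext
    funext i
    apply Fin.ext
    have h3 : (a.1 i : ℕ) / q = (b.1 i : ℕ) / q := by
      have := congrArg (fun x : I n M => (x.1 i : ℕ)) h1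
      exact this
    have h4 : (a.1 i : ℕ) % q = (b.1 i : ℕ) % q := by
      have := congrArg (fun x : Fin n → Fin q => (x i : ℕ)) h2
      exact this
    rw [← Nat.div_add_mod (a.1 i : ℕ) q, ← Nat.div_add_mod (b.1 i : ℕ) q, h3, h4]
  have hpt : ∀ a : I n k, f (fun i => (a.1 i : ℕ)) ≤
      q * f (fun i => ((φ a).1.1 i : ℕ)) + C * n * q := by
    intro a
    have e1 : (fun i => (a.1 i : ℕ)) =
        (fun i => q * ((a.1 i : ℕ) / q)) + (fun i => (a.1 i : ℕ) % q) := by
      funext i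
      exact (Nat.div_add_mod _ _).symm
    have h1 := hsub (fun i => q * ((a.1 i : ℕ) / q)) (fun i => (a.1 i : ℕ) % q)
    rw [← e1] at h1
    have h2 := mul_le hsub q hq (fun i => (a.1 i : ℕ) / q)
    have h3 := hf (fun i => (a.1 i : ℕ) % q)
    have h4 : ∑ i : Fin n, (((a.1 i : ℕ) % q : ℕ) : ℝ) ≤ n * q := by
      calc ∑ i : Fin n, (((a.1 i : ℕ) % q : ℕ) : ℝ) ≤ ∑ i : Fin n, (q : ℝ) := by
            refine Finset.sum_le_sum fun i _ => ?_
            exact_mod_cast (Nat.mod_lt _ hq).le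
        _ = n * q := by simp
    have h5 : C * ∑ i : Fin n, (((a.1 i : ℕ) % q : ℕ) : ℝ) ≤ C * (n * q) :=
      mul_le_mul_of_nonneg_left h4 hC
    have h6 : f (fun i => ((φ a).1.1 i : ℕ)) = f (fun i => (a.1 i : ℕ) / q) := rfl
    rw [h6]
    linarith
  have hcard : (Fintype.card (I n k) : ℝ) ≤ ((k : ℝ) + 1)^n := by
    have h1 : Fintype.card (I n k) ≤ (k+1)^n := by
      have := Fintype.card_subtype_le (fun α : Fin n → Fin (k+1) => ∑ i, (α i : ℕ) ≤ k)
      simpa using this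
    exact_mod_cast h1
  have hsum : ∑ a : I n k, f (fun i => ((φ a).1.1 i : ℕ)) ≤
      (q : ℝ)^n * ∑ a : I n M, f (fun i => (a.1 i : ℕ)) := by
    calc ∑ a : I n k, f (fun i => ((φ a).1.1 i : ℕ))
        = ∑ x ∈ Finset.univ.map ⟨φ, hφ⟩, f (fun i => (x.1.1 i : ℕ)) := by
          rw [Finset.sum_map]
          rfl
      _ ≤ ∑ x : I n M × (Fin n → Fin q), f (fun i => (x.1.1 i : ℕ)) := by
          apply Finset.sum_le_sum_of_subset_of_nonneg (Finset.subset_univ _)
          intro x _ _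
          exact h0 _
      _ = (q : ℝ)^n * ∑ a : I n M, f (fun i => (a.1 i : ℕ)) := by
          rw [Fintype.sum_prod_type]
          simp only [Finset.sum_const, Finset.card_univ, Fintype.card_fun, Fintype.card_fin,
            nsmul_eq_mul, Nat.cast_pow]
          rw [Finset.mul_sum]
  have hCnq : 0 ≤ C * n * q := by positivity
  calc ∑ a : I n k, f (fun i => (a.1 i : ℕ))
      ≤ ∑ a : I n k, (q * f (fun i => ((φ a).1.1 i : ℕ)) + C * n * q) :=
        Finset.sum_le_sum fun a _ => hpt a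
    _ = q * ∑ a : I n k, f (fun i => ((φ a).1.1 i : ℕ)) +
          (Fintype.card (I n k) : ℝ) * (C * n * q) := by
        rw [Finset.sum_add_distrib, Finset.mul_sum, Finset.sum_const, nsmul_eq_mul]
        rfl
    _ ≤ q * ((q : ℝ)^n * ∑ a : I n M, f (fun i => (a.1 i : ℕ))) +
          ((k : ℝ)+1)^n * (C * n * q) := by
        apply add_le_add
        · exact mul_le_mul_of_nonneg_left hsum (by positivity)
        · exact mul_le_mul_of_nonneg_right hcard hCnq
    _ = _ := by ring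

/-- the ratio `(k / M + 1) / k` tends to `1 / M`. -/
theorem tendsto_q (M : ℕ) (hM : 1 ≤ M) :
    Tendsto (fun k : ℕ => (((k / M + 1 : ℕ) : ℝ)) / (k : ℝ)) atTop (𝓝 (1 / (M : ℝ))) := by
  have hM0 : (0 : ℝ) < M := by exact_mod_cast hM
  have hlow : ∀ᶠ k : ℕ in atTop, 1 / (M : ℝ) ≤ (((k / M + 1 : ℕ) : ℝ)) / (k : ℝ) := by
    filter_upwards [eventually_ge_atTop 1] with k hk
    have hk0 : (0 : ℝ) < k := by exact_mod_cast hk
    rw [div_le_div_iff₀ hM0 hk0]
    have h1 : k < (k / M + 1) * M := by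
      have := Nat.lt_mul_div_succ k (Nat.lt_of_lt_of_le Nat.zero_lt_one hM)
      rw [mul_comm]
      exact this
    have h2 : (k : ℝ) < ((k / M + 1 : ℕ) : ℝ) * M := by exact_mod_cast h1
    linarith
  have hup : ∀ᶠ k : ℕ in atTop, (((k / M + 1 : ℕ) : ℝ)) / (k : ℝ) ≤ 1 / (M : ℝ) + 1 / (k : ℝ) := by
    filter_upwards [eventually_ge_atTop 1] with k hk
    have hk0 : (0 : ℝ) < k := by exact_mod_cast hk
    have h1 : ((k / M : ℕ) : ℝ) ≤ (k : ℝ) / M := Nat.cast_div_le
    have h2 : ((k : ℝ) / M) / k = 1 / M := by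
      field_simp
    push_cast
    rw [add_div, ← h2]
    gcongr
  have hlim : Tendsto (fun k : ℕ => 1 / (M : ℝ) + 1 / (k : ℝ)) atTop (𝓝 (1 / (M : ℝ))) := by
    have := (tendsto_one_div_atTop_nhds_zero_nat (𝕜 := ℝ)).const_add (1 / (M : ℝ))
    simpa using this
  exact tendsto_of_tendsto_of_tendsto_of_le_of_le' tendsto_const_nhds hlim hlow hup

theorem tendsto_succ : Tendsto (fun k : ℕ => ((k : ℝ) + 1) / (k : ℝ)) atTop (𝓝 1) := by
  have h := (tendsto_one_div_atTop_nhds_zero_nat (𝕜 := ℝ)).const_add (1 : ℝ)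
  rw [add_zero] at h
  refine h.congr' ?_
  filter_upwards [eventually_ge_atTop 1] with k hk
  have hk0 : (0 : ℝ) < k := by exact_mod_cast hk
  field_simp

end Task6Aux

open Task6Aux in
theorem task6 : T6 := by
  intro n f C' hsub h0 hf'
  -- replace the constant by a nonnegative one
  obtain ⟨C, hC, hf⟩ : ∃ C : ℝ, 0 ≤ C ∧ ∀ α, f α ≤ C * ∑ i, (α i : ℝ) := by
    refine ⟨max C' 0, le_max_right _ _, fun α => (hf' α).trans ?_⟩
    exact mul_le_mul_of_nonneg_right (le_max_left _ _)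
      (Finset.sum_nonneg fun i _ => Nat.cast_nonneg _)
  set S : ℕ → ℝ := fun k => ∑ a : I n k, f (fun i => (a.1 i : ℕ)) with hS
  have hS0 : ∀ k, 0 ≤ S k := fun k => Finset.sum_nonneg fun a _ => h0 _
  set R : ℕ → ℝ := fun M => S M / (M : ℝ)^(n+1) + C * n / M with hR
  have hR0 : ∀ M, 0 ≤ R M := by
    intro M
    have := hS0 M
    simp only [hR]
    positivity
  -- upper bounds
  have hupper : ∀ M : ℕ, 1 ≤ M → ∃ b : ℕ → ℝ, Tendsto b atTop (𝓝 (R M)) ∧
      ∀ᶠ k in atTop, S k / (k : ℝ)^(n+1) ≤ b k := by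
    intro M hM
    refine ⟨fun k => ((((k / M + 1 : ℕ) : ℝ)) / (k : ℝ))^(n+1) * S M +
      (((k : ℝ) + 1) / (k : ℝ))^n * (C * n * ((((k / M + 1 : ℕ) : ℝ)) / (k : ℝ))), ?_, ?_⟩
    · have h1 := ((tendsto_q M hM).pow (n+1)).mul_const (S M)
      have h2 := (tendsto_succ.pow n).mul ((tendsto_q M hM).const_mul (C * n))
      have h3 := h1.add h2
      have h4 : (1 / (M : ℝ))^(n+1) * S M + 1^n * (C * n * (1 / (M : ℝ))) = R M := by
        simp only [hR]
        rw [one_div, inv_pow]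
        ring
      rw [h4] at h3
      exact h3
    · filter_upwards [eventually_ge_atTop 1] with k hk
      have hk0 : (0 : ℝ) < k := by exact_mod_cast hk
      have hkM : k ≤ (k / M + 1) * M := by
        have := Nat.lt_mul_div_succ k (Nat.lt_of_lt_of_le Nat.zero_lt_one hM)
        rw [mul_comm]
        exact this.le
      have h1 := key hsub h0 hC hf k M (k / M + 1) (Nat.le_add_left 1 _) hkM
      rw [div_le_iff₀ (by positivity)]
      refine h1.trans (le_of_eq ?_)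
      simp only [hS]
      rw [div_pow, div_pow]
      field_simp
      ring
  -- the limit
  set L : ℝ := sInf (R '' {M | 1 ≤ M}) with hL
  have hbdd : BddBelow (R '' {M | 1 ≤ M}) := ⟨0, by rintro _ ⟨M, _, rfl⟩; exact hR0 M⟩
  have hne : (R '' {M | 1 ≤ M}).Nonempty := ⟨R 1, 1, le_refl 1, rfl⟩
  refine ⟨L, ?_⟩
  rw [tendsto_order]
  constructor
  · intro x hx
    -- lower bound
    have h1 : Tendsto (fun k : ℕ => L - C * n * (1 / (k : ℝ))) atTop (𝓝 L) := by
      have := ((tendsto_one_div_atTop_nhds_zero_nat (𝕜 := ℝ)).const_mul (C * n)).const_sub L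
      simpa using this
    filter_upwards [h1.eventually (lt_mem_nhds hx), eventually_ge_atTop 1] with k hk1 hk2
    have h2 : L ≤ R k := csInf_le hbdd ⟨k, hk2, rfl⟩
    have h3 : R k = S k / (k : ℝ)^(n+1) + C * n * (1 / (k : ℝ)) := by
      simp only [hR]
      ring
    have h4 : x < S k / (k : ℝ)^(n+1) := by linarith
    exact h4
  · intro x hx
    obtain ⟨_, ⟨M, hM, rfl⟩, hMx⟩ := exists_lt_of_csInf_lt hne hx
    obtain ⟨b, hb1, hb2⟩ := hupper M hM
    filter_upwards [hb1.eventually (gt_mem_nhds hMx), hb2] with k hk1 hk2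
    exact lt_of_le_of_lt hk2 hk1

end Pool.Agent.H940R3.ZB
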